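import Mathlib

set_option autoImplicit false

open Finset
open scoped FinsetFamily

namespace Pool.Agent.Results.MP_4652a8_nt.BinaryExponents

/-- the product of the prime powers `p ^ D p`, `p ∈ S` -/
def mm (D : ℕ → ℕ) (S : Finset ℕ) : ℕ := ∏ p ∈ S, p ^ D p

variable {D : ℕ → ℕ}

lemma mm_pos {S : Finset ℕ} (hS : ∀ p ∈ S, p.Prime) : 0 < mm D S :=
  Finset.prod_pos fun p hp => pow_pos (hS p hp).pos _

lemma dvd_iff (hD : ∀ p, 1 ≤ D p) {S : Finset ℕ} (hS : ∀ p ∈ S, p.Prime) {p : ℕ}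
    (hp : p.Prime) : p ∣ mm D S ↔ p ∈ S := by
  unfold mm
  constructor
  · intro h
    obtain ⟨q, hq, hpq⟩ := (hp.prime.dvd_finsetProd_iff _).1 h
    have := hp.dvd_of_dvd_pow hpq
    rwa [(Nat.prime_dvd_prime_iff_eq hp (hS q hq)).1 this]
  · intro h
    exact (dvd_pow_self p (by have := hD p; omega)).trans (Finset.dvd_prod_of_mem _ h)

lemma mm_inj (hD : ∀ p, 1 ≤ D p) {S T : Finset ℕ} (hS : ∀ p ∈ S, p.Prime)
    (hT : ∀ p ∈ T, p.Prime) (h : mm D S = mm D T) : S = T := by
  ext p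
  constructor
  · intro hp
    rw [← dvd_iff hD hT (hS p hp), ← h, dvd_iff hD hS (hS p hp)]
    exact hp
  · intro hp
    rw [← dvd_iff hD hS (hT p hp), h, dvd_iff hD hT (hT p hp)]
    exact hp

lemma quot {K : ℕ} (hK : 0 < K) {S T : Finset ℕ} (hS : ∀ p ∈ S, p.Prime)
    (hT : ∀ p ∈ T, p.Prime) :
    K * mm D S / Nat.gcd (K * mm D S) (K * mm D T) = mm D (S \ T) := by
  have e1 : mm D S = mm D (S ∩ T) * mm D (S \ T) := by
    unfold mm
    rw [mul_comm, ← Finset.prod_union (Finset.disjoint_sdiff_inter S T), Finset.sdiff_union_inter]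
  have e2 : mm D T = mm D (S ∩ T) * mm D (T \ S) := by
    unfold mm
    rw [Finset.inter_comm, mul_comm, ← Finset.prod_union (Finset.disjoint_sdiff_inter T S),
      Finset.sdiff_union_inter]
  have hc : Nat.Coprime (mm D (S \ T)) (mm D (T \ S)) := by
    unfold mm
    refine Nat.Coprime.prod_left fun p hp => Nat.Coprime.prod_right fun q hq => ?_
    rw [mem_sdiff] at hp hq
    refine Nat.Coprime.pow _ _ ((Nat.coprime_primes (hS p hp.1) (hT q hq.1)).2 ?_)
    rintro rfl
    exact hp.2 hq.1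
  have hpos : 0 < mm D (S ∩ T) := mm_pos fun p hp => hS p (mem_inter.1 hp).1
  rw [Nat.gcd_mul_left, e1, e2, Nat.gcd_mul_left, hc.gcd_eq_one, mul_one, ← mul_assoc]
  exact Nat.mul_div_cancel_left _ (Nat.mul_pos hK hpos)

/-- Q1 (in the stronger form `|A| |B| ≤ M(A,B)²`) when every prime has at most two exponents in
the elements of `A ∪ B`; for `K = 1`, `D = 1` these are the sets of squarefree integers. -/
theorem result (A B : Finset ℕ) (hA : A.Nonempty) (hB : B.Nonempty) (K : ℕ) (hK : 0 < K)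
    (D : ℕ → ℕ) (hD : ∀ p, 1 ≤ D p)
    (h : ∀ x ∈ A ∪ B, ∃ S : Finset ℕ, (∀ p ∈ S, p.Prime) ∧ x = K * ∏ p ∈ S, p ^ D p) :
    ∃ a ∈ A, ∃ b ∈ B,
      A.card * B.card ≤ (max (a / Nat.gcd a b) (b / Nat.gcd a b)) ^ 2 ∧
      min A.card B.card ≤ max (a / Nat.gcd a b) (b / Nat.gcd a b) := by
  classical
  choose! φ hφp hφ using h
  have hφ' : ∀ x ∈ A ∪ B, x = K * mm D (φ x) := hφ
  -- a pair with the largest value
  obtain ⟨⟨a, b⟩, hab, hmax⟩ := Finset.exists_max_image (A ×ˢ B)
    (fun p => max (p.1 / Nat.gcd p.1 p.2) (p.2 / Nat.gcd p.1 p.2)) (hA.product hB)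
  rw [mem_product] at hab
  set M := max (a / Nat.gcd a b) (b / Nat.gcd a b) with hM
  have inj : ∀ x ∈ A ∪ B, ∀ y ∈ A ∪ B, φ x = φ y → x = y := by
    intro x hx y hy hxy
    rw [hφ' x hx, hφ' y hy, hxy]
  have cA : (A.image φ).card = A.card := Finset.card_image_of_injOn fun x hx y hy hxy =>
    inj x (mem_union_left _ hx) y (mem_union_left _ hy) hxy
  have cB : (B.image φ).card = B.card := Finset.card_image_of_injOn fun x hx y hy hxy =>
    inj x (mem_union_right _ hx) y (mem_union_right _ hy) hxy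
  have bd : ∀ (X Y : Finset ℕ), X ⊆ A ∪ B → Y ⊆ A ∪ B →
      (∀ x ∈ X, ∀ y ∈ Y, x / Nat.gcd x y ≤ M) →
      ((X.image φ) \\ (Y.image φ)).card ≤ M := by
    intro X Y hX hY hle
    have hprime : ∀ Z ∈ (X.image φ) \\ (Y.image φ), ∀ p ∈ Z, p.Prime := by
      intro Z hZ p hp
      obtain ⟨S, hS, T, hT, rfl⟩ := mem_diffs.1 hZ
      obtain ⟨x, hx, rfl⟩ := mem_image.1 hS
      exact hφp x (hX hx) p (mem_sdiff.1 hp).1
    calc ((X.image φ) \\ (Y.image φ)).card
        = (((X.image φ) \\ (Y.image φ)).image (mm D)).card := by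
          rw [Finset.card_image_of_injOn]
          intro Z hZ W hW hZW
          exact mm_inj hD (hprime Z hZ) (hprime W hW) hZW
      _ ≤ (Finset.Icc 1 M).card := by
          apply Finset.card_le_card
          intro z hz
          obtain ⟨Z, hZ, rfl⟩ := mem_image.1 hz
          have hpos := mm_pos (D := D) (hprime Z hZ)
          obtain ⟨S, hS, T, hT, rfl⟩ := mem_diffs.1 hZ
          obtain ⟨x, hx, rfl⟩ := mem_image.1 hS
          obtain ⟨y, hy, rfl⟩ := mem_image.1 hT
          have h1 := hle x hx y hy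
          have e := quot (D := D) hK (hφp x (hX hx)) (hφp y (hY hy))
          rw [← hφ' x (hX hx), ← hφ' y (hY hy)] at e
          rw [e] at h1
          exact mem_Icc.2 ⟨hpos, h1⟩
      _ = M := by simp
  have b1 := bd A B subset_union_left subset_union_right fun x hx y hy =>
    (le_max_left _ _).trans (hmax (x, y) (mem_product.2 ⟨hx, hy⟩))
  have b2 := bd B A subset_union_right subset_union_left fun x hx y hy => by
    rw [Nat.gcd_comm]
    exact (le_max_right _ _).trans (hmax (y, x) (mem_product.2 ⟨hy, hx⟩))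
  have key := Finset.le_card_diffs_mul_card_diffs (A.image φ) (B.image φ)
  rw [cA, cB] at key
  have h1 : A.card * B.card ≤ M ^ 2 := by
    rw [pow_two]
    exact key.trans (Nat.mul_le_mul b1 b2)
  refine ⟨a, hab.1, b, hab.2, h1, ?_⟩
  have h2 : (min A.card B.card) ^ 2 ≤ M ^ 2 := by
    rw [pow_two]
    exact (Nat.mul_le_mul (min_le_left _ _) (min_le_right _ _)).trans h1
  exact (Nat.pow_le_pow_iff_left (by norm_num)).1 h2

end Pool.Agent.Results.MP_4652a8_nt.BinaryExponents
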